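import Pool.Agent.PVD.StmtsL

/-! MP_e25c73_gt, block L, row EXL: expansion of `log lam` and of `lam`. -/

set_option autoImplicit false
open MeasureTheory

namespace Pool.Agent.PVD.L.H27

/-- quotients bounded by a constant are integrable -/
theorem int_div {f u : ℝ → ℝ} {K : ℝ} (hf : Continuous f) (hu : Continuous u)
    (hlo : ∀ t, 0 ≤ t → t ≤ 1 → t ≤ f t) (hK : ∀ t, 0 ≤ t → t ≤ 1 → |u t| ≤ K * f t) :
    IntervalIntegrable (fun t => u t / f t) volume 0 1 := by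
  rw [intervalIntegrable_iff_integrableOn_Ioc_of_le zero_le_one]
  apply Measure.integrableOn_of_bounded (M := K) (by simp)
  · exact (hu.measurable.div hf.measurable).aestronglyMeasurable
  · rw [ae_restrict_iff' measurableSet_Ioc]
    refine Filter.Eventually.of_forall fun t ht => ?_
    have h1 : 0 < f t := lt_of_lt_of_le ht.1 (hlo t ht.1.le ht.2)
    rw [Real.norm_eq_abs, abs_div, abs_of_pos h1, div_le_iff₀ h1]
    exact hK t ht.1.le ht.2

theorem exl (hR : RemStmt) (hG : GlnStmt) (hL : LogStmt) (hW : WbdStmt) : ExlStmt := by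
  intro e h0 h1
  obtain ⟨C1, hC1, hrem⟩ := hR e h0 h1
  obtain ⟨C2, hC2⟩ : ∃ C2, C2 = C1 ^ 2 + C1 + 4 + 1 / e := ⟨_, rfl⟩
  obtain ⟨C3, hC3⟩ : ∃ C3, C3 = C1 + 1 + 2 * C2 := ⟨_, rfl⟩
  have he : 0 < 1 / e := by positivity
  have hC2' : 1 ≤ C2 := by rw [hC2]; nlinarith
  have hC3' : 1 ≤ C3 := by rw [hC3]; linarith
  have hC3'' : C1 ≤ C3 := by rw [hC3]; linarith
  refine ⟨C2 + C3 ^ 2 + C3, by nlinarith, ?_⟩
  intro q sg y u1 u2 v hp hCT
  obtain ⟨T, hT⟩ : ∃ T, T = TT q := ⟨_, rfl⟩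
  have hq0 := hp.q0
  have hqT : q ≤ T := hT ▸ hp.qT
  rw [← hT] at hCT
  have hT0 : 0 < T := lt_of_lt_of_le hq0 hqT
  have hsq : 0 ≤ C3 ^ 2 := by positivity
  have b1 : C1 * T ≤ 1 / 2 := by nlinarith
  have b3 : C3 * T ≤ 1 / 2 := by nlinarith
  have bT : T ≤ 1 / 2 := by nlinarith
  have hq1 : q < 1 := by linarith
  obtain ⟨hs0, hs1, hs2, hs3⟩ := hrem q sg y u1 u2 v hp (hT ▸ b1)
  rw [← hT] at hs2 hs3
  obtain ⟨s, hs⟩ : ∃ s, s = ss e q sg y := ⟨_, rfl⟩
  rw [← hs] at hs0 hs1 hs2 hs3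
  rw [← hT, ← hs]
  have hadm := bas_adm h0 h1 hp.y0 hp.y1
  obtain ⟨f, hf⟩ : ∃ f, f = fm e (bas e y) := ⟨_, rfl⟩
  obtain ⟨g, hg⟩ : ∃ g, g = fm e (nuL e q sg y u1 u2) := ⟨_, rfl⟩
  rw [← hf] at hadm
  have hs3a : ∀ t, 0 ≤ t → t ≤ 1 → |g t - f t| ≤ C1 * T * f t := by
    intro t ht0 ht1; rw [hf, hg]; exact (hs3 t ht0 ht1).1
  have hs3b : ∀ t, 0 ≤ t → t ≤ 1 →
      |g t - f t - s * (cl e 3 t - cl e 2 t)| ≤ C1 * q * f t := by
    intro t ht0 ht1; rw [hf, hg]; exact (hs3 t ht0 ht1).2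
  have hfc : Continuous f := hf ▸ fm_cont e _
  have hgc : Continuous g := hg ▸ fm_cont e _
  have hT1 : C1 * T ≥ 0 := by positivity
  have g1 := hG f (fun t => g t - f t) (C1 * T) hfc (hgc.sub hfc) hadm.lo hT1 b1 hs3a
  have g2 := hL e (y / e) q f hadm hq0 hq1
  -- the integral of r/f
  have hcf : ∀ i : Fin 4, i ≠ 0 → IntervalIntegrable (fun t => cl e i t / f t) volume 0 1 := by
    intro i hi
    apply int_div (K := 1) hfc (cl_cont e i) hadm.lo
    intro t ht0 ht1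
    rw [abs_of_nonneg (cl_nonneg h0 (by linarith) ht0 ht1 i), one_mul]
    exact (cl_le h0 (by linarith) ht0 i hi).trans (hadm.lo t ht0 ht1)
  have i3 := hcf 3 (by decide)
  have i2 := hcf 2 (by decide)
  have ir : IntervalIntegrable (fun t => (g t - f t) / f t) volume 0 1 :=
    int_div hfc (hgc.sub hfc) hadm.lo hs3a
  have e3 : cc e y = ∫ t in (0:ℝ)..1, cl e 3 t / f t := by rw [cc, Hm, hf]
  have e2 : hh e y = ∫ t in (0:ℝ)..1, cl e 2 t / f t := by rw [hh, Hm, hf]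
  have g3 : |(∫ t in (0:ℝ)..1, (g t - f t) / f t) - s * (cc e y - hh e y)| ≤ C1 * q := by
    have h2 : (∫ t in (0:ℝ)..1, (g t - f t) / f t) - s * (cc e y - hh e y) =
        ∫ t in (0:ℝ)..1, ((g t - f t) / f t - s * (cl e 3 t / f t - cl e 2 t / f t)) := by
      rw [intervalIntegral.integral_sub ir ((i3.sub i2).const_mul s),
        intervalIntegral.integral_const_mul, intervalIntegral.integral_sub i3 i2, e3, e2]
    rw [h2]
    have h3 := intervalIntegral.norm_integral_le_of_norm_le_const (a := (0:ℝ)) (b := 1)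
      (f := fun t => (g t - f t) / f t - s * (cl e 3 t / f t - cl e 2 t / f t)) (C := C1 * q) (by
        intro t ht
        rw [Set.uIoc_of_le zero_le_one] at ht
        have hft : 0 < f t := lt_of_lt_of_le ht.1 (hadm.lo t ht.1.le ht.2)
        have h4 : (g t - f t) / f t - s * (cl e 3 t / f t - cl e 2 t / f t) =
            (g t - f t - s * (cl e 3 t - cl e 2 t)) / f t := by ring
        rw [h4, Real.norm_eq_abs, abs_div, abs_of_pos hft, div_le_iff₀ hft]
        exact hs3b t ht.1.le ht.2)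
    rw [Real.norm_eq_abs, sub_zero, abs_one, mul_one] at h3
    exact h3
  have eg : (∫ t in (0:ℝ)..1, Real.log (f t + (g t - f t))) = ∫ t in (0:ℝ)..1, Real.log (g t) := by
    congr 1
    funext t
    rw [add_sub_cancel]
  have ePK : Ph e (muK e q y) = -∫ t in (0:ℝ)..1, Real.log (f t + q * (1 - t)) := by
    rw [Ph]
    congr 1
    congr 1
    funext t
    rw [fm_muK, hf]
  have ePL : Ph e (nuL e q sg y u1 u2) = -∫ t in (0:ℝ)..1, Real.log (g t) := by
    rw [Ph, hg]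
  rw [eg] at g1
  have hy0 : 0 < y := by linarith [hp.y0]
  have eT : q * Real.log (1 / q) / (y / e) = T * (e / y) := by
    rw [hT, TT]
    field_simp
  rw [eT] at g2
  obtain ⟨L, hLd⟩ : ∃ L, L = v + Ph e (muK e q y) - Ph e (nuL e q sg y u1 u2) := ⟨_, rfl⟩
  obtain ⟨m, hm⟩ : ∃ m, m = s * (cc e y - hh e y) - T * (e / y) := ⟨_, rfl⟩
  have hmain : |L - m| ≤ C2 * (q + T ^ 2) := by
    have hv := hp.vb
    rw [abs_le] at g1 g2 g3 hv ⊢
    have hCC : C2 * (q + T ^ 2) =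
        q * C1 ^ 2 + (C1 * q + (q * (1 / e + 3)) + q) + (C1 * T) ^ 2 +
          (C1 + 4 + 1 / e) * T ^ 2 := by
      rw [hC2]; ring
    have p1 : 0 ≤ q * C1 ^ 2 := by positivity
    have p2 : 0 ≤ (C1 + 4 + 1 / e) * T ^ 2 := by positivity
    rw [hCC, hLd, hm, ePK, ePL]
    constructor
    · linarith [g1.1, g1.2, g2.1, g2.2, g3.1, g3.2, hv.1, hv.2]
    · linarith [g1.1, g1.2, g2.1, g2.2, g3.1, g3.2, hv.1, hv.2]
  have hey : e / y ≤ 1 := by
    rw [div_le_one hy0]; linarith [hp.y0]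
  have hey0 : 0 ≤ e / y := by positivity
  obtain ⟨w1, w2, w3, w4, -, -, -, -⟩ := hW e y h0 h1 hp.y0 hp.y1
  have w0 : 0 ≤ hh e y := le_trans (by positivity) w1
  have hmb : |m| ≤ C1 * T + T := by
    have k1 : |cc e y - hh e y| ≤ 1 := by
      rw [abs_le]; constructor <;> linarith
    have k2 : |s * (cc e y - hh e y)| ≤ C1 * T := by
      rw [abs_mul, abs_of_pos hs0]
      calc s * |cc e y - hh e y| ≤ s * 1 := mul_le_mul_of_nonneg_left k1 hs0.le
        _ ≤ C1 * T := by linarith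
    have k3 : |T * (e / y)| ≤ T := by
      rw [abs_of_nonneg (mul_nonneg hT0.le hey0)]
      calc T * (e / y) ≤ T * 1 := mul_le_mul_of_nonneg_left hey hT0.le
        _ = T := mul_one T
    rw [hm]
    exact (abs_sub _ _).trans (add_le_add k2 k3)
  have hTT : T ^ 2 ≤ T := by
    rw [pow_two]
    calc T * T ≤ T * 1 := mul_le_mul_of_nonneg_left (by linarith) hT0.le
      _ = T := mul_one T
  have hLb : |L| ≤ C3 * T := by
    have k1 : |L| ≤ |L - m| + |m| := by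
      have := abs_add_le (L - m) m
      rwa [sub_add_cancel] at this
    have k2 : C2 * (q + T ^ 2) ≤ C2 * (2 * T) :=
      mul_le_mul_of_nonneg_left (by linarith) (by linarith)
    have k3 : C3 * T = C2 * (2 * T) + (C1 * T + T) := by rw [hC3]; ring
    linarith
  have hLb1 : |L| ≤ 1 := by linarith
  have hL2 : L ^ 2 ≤ C3 ^ 2 * T ^ 2 := by
    rw [← sq_abs, ← mul_pow]
    exact pow_le_pow_left₀ (abs_nonneg L) hLb 2
  have hexp := Real.abs_exp_sub_one_sub_id_le hLb1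
  have hx : 0 ≤ C3 ^ 2 * q := by positivity
  have hx' : 0 ≤ C3 * (q + T ^ 2) := by positivity
  have hx'' : 0 ≤ C3 ^ 2 * T ^ 2 := by positivity
  have hfin : (C2 + C3 ^ 2 + C3) * (q + T ^ 2) =
      C2 * (q + T ^ 2) + C3 ^ 2 * q + C3 ^ 2 * T ^ 2 + C3 * (q + T ^ 2) := by ring
  rw [← hLd, ← hm, hfin]
  refine ⟨by linarith, ?_⟩
  have hlam : lam e q sg y u1 u2 v = Real.exp L := by rw [lam, hLd]
  rw [hlam]
  have k1 : Real.exp L - 1 - m = (Real.exp L - 1 - L) + (L - m) := by ring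
  rw [k1]
  have := abs_add_le (Real.exp L - 1 - L) (L - m)
  linarith

end Pool.Agent.PVD.L.H27
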