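import Pool.Agent.PVD.StmtsM2

/-! MP_e25c73_gt, block M, row PMC: the parameter maps on the cube. -/

set_option autoImplicit false
open MeasureTheory Filter Topology Set

namespace Pool.Agent.PVD.M.H27

open Pool.Agent.PVD.L Pool.Agent.PVD.M

theorem pmc (hC : CntStmt) (hW : WctStmt) (hH : HpoStmt) : PmcStmt := by
  intro k q d kap hok
  obtain ⟨hk, hq0, hq1, hd0, hd1, -, hbox⟩ := hok
  have hkR : (128 : ℝ) < k := by exact_mod_cast hk
  have hk0 : (0 : ℝ) < k := by linarith
  obtain ⟨e, he⟩ : ∃ e : ℝ, e = 1 / k := ⟨_, rfl⟩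
  have he0 : 0 < e := by rw [he]; positivity
  have he1 : e < 1 / 128 := by
    rw [he, div_lt_div_iff₀ hk0 (by norm_num)]
    linarith
  obtain ⟨c1, c2, c3⟩ := hC e he0 (by linarith)
  have w1 := hW e he0 he1
  -- the box
  have hx : ∀ x ∈ Icc (0 : Fin 5 → ℝ) 1, ∀ i, 0 ≤ x i ∧ x i ≤ 1 := by
    intro x hx i
    exact ⟨hx.1 i, hx.2 i⟩
  have hpy : ∀ x ∈ Icc (0 : Fin 5 → ℝ) 1, 1 / 64 ≤ py x ∧ py x ≤ 1 := by
    intro x hxx
    obtain ⟨h1, h2⟩ := hx x hxx 4
    unfold py
    constructor <;> linarith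
  have hsg : ∀ x ∈ Icc (0 : Fin 5 → ℝ) 1, |psg d x - 1| ≤ d := by
    intro x hxx
    obtain ⟨h1, h2⟩ := hx x hxx 3
    unfold psg
    rw [abs_le]
    constructor <;> nlinarith
  have hpu : ∀ x ∈ Icc (0 : Fin 5 → ℝ) 1, ∀ i, |pu q x i| ≤ q := by
    intro x hxx i
    obtain ⟨h1, h2⟩ := hx x hxx i
    unfold pu
    rw [abs_le]
    constructor <;> nlinarith
  have hss : ∀ x ∈ Icc (0 : Fin 5 → ℝ) 1, 0 < ss e q (psg d x) (py x) ∧
      2 * ss e q (psg d x) (py x) < beta e (py x) := by
    intro x hxx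
    have h := hbox (psg d x) (py x) (pu q x 0) (pu q x 1) (pu q x 2) (hsg x hxx) (hpy x hxx).1
      (hpy x hxx).2 (hpu x hxx 0) (hpu x hxx 1) (hpu x hxx 2)
    rw [← he] at h
    exact ⟨h.1, h.2.1⟩
  have hb : ∀ x ∈ Icc (0 : Fin 5 → ℝ) 1, 0 < beta e (py x) := by
    intro x hxx
    exact beta_pos he0 he1 (hpy x hxx).1
  -- continuity of the parameters
  have kpu : ∀ i, Continuous fun x : Fin 5 → ℝ => pu q x i := by
    intro i; unfold pu; fun_prop
  have kpsg : Continuous fun x : Fin 5 → ℝ => psg d x := by unfold psg; fun_prop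
  have kpy : Continuous fun x : Fin 5 → ℝ => py x := by unfold py; fun_prop
  have kb : ContinuousOn (fun x : Fin 5 → ℝ => beta e (py x)) (Icc 0 1) := by
    apply Continuous.continuousOn
    unfold beta
    exact (kpy.sub continuous_const).div_const _
  have kw : ContinuousOn (fun x : Fin 5 → ℝ => ww e (py x)) (Icc 0 1) :=
    w1.comp kpy.continuousOn fun x hxx => hpy x hxx
  have ks : ContinuousOn (fun x : Fin 5 → ℝ => ss e q (psg d x) (py x)) (Icc 0 1) := by
    unfold ss
    exact (kpsg.continuousOn.mul continuousOn_const).mul kw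
  have kmK : ContinuousOn (fun x : Fin 5 → ℝ => muK e q (py x)) (Icc 0 1) := by
    rw [continuousOn_pi]
    intro i
    fin_cases i
    · exact continuousOn_const
    · exact continuousOn_const
    · exact kb
    · exact continuousOn_const
  have knL : ContinuousOn (fun x : Fin 5 → ℝ =>
      nuL e q (psg d x) (py x) (pu q x 0) (pu q x 1)) (Icc 0 1) := by
    rw [continuousOn_pi]
    intro i
    fin_cases i
    · exact continuousOn_const
    · exact (continuous_const.mul (Real.continuous_exp.comp (kpu 0))).continuousOn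
    · exact (kb.sub ks).mul (Real.continuous_exp.comp (kpu 1)).continuousOn
    · exact ks
  -- membership
  have mDL : ∀ x ∈ Icc (0 : Fin 5 → ℝ) 1, muK e q (py x) ∈ DL := by
    intro x hxx
    exact ⟨hq0.le, one_pos, (hb x hxx).le, le_refl 0⟩
  have mDK : ∀ x ∈ Icc (0 : Fin 5 → ℝ) 1, muK e q (py x) ∈ DK := by
    intro x hxx
    exact ⟨hq0, one_pos, (hb x hxx).le, le_refl 0⟩
  have n1 : ∀ x : Fin 5 → ℝ, 0 < (1 + q) * Real.exp (pu q x 0) := fun x =>
    mul_pos (by linarith) (Real.exp_pos _)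
  have n2 : ∀ x ∈ Icc (0 : Fin 5 → ℝ) 1,
      0 < (beta e (py x) - ss e q (psg d x) (py x)) * Real.exp (pu q x 1) := by
    intro x hxx
    obtain ⟨h1, h2⟩ := hss x hxx
    exact mul_pos (by linarith) (Real.exp_pos _)
  have nDL : ∀ x ∈ Icc (0 : Fin 5 → ℝ) 1,
      nuL e q (psg d x) (py x) (pu q x 0) (pu q x 1) ∈ DL := by
    intro x hxx
    exact ⟨le_refl 0, n1 x, (n2 x hxx).le, (hss x hxx).1.le⟩
  -- lambda
  have klam : ContinuousOn (fun x : Fin 5 → ℝ =>
      lam e q (psg d x) (py x) (pu q x 0) (pu q x 1) (pu q x 2)) (Icc 0 1) := by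
    have h1 : ContinuousOn (fun x : Fin 5 → ℝ => Ph e (muK e q (py x))) (Icc 0 1) :=
      c3.comp kmK mDL
    have h2 : ContinuousOn (fun x : Fin 5 → ℝ =>
        Ph e (nuL e q (psg d x) (py x) (pu q x 0) (pu q x 1))) (Icc 0 1) := c3.comp knL nDL
    exact Real.continuous_exp.comp_continuousOn (((kpu 2).continuousOn.add h1).sub h2)
  have hlam : ∀ x : Fin 5 → ℝ, 0 < lam e q (psg d x) (py x) (pu q x 0) (pu q x 1) (pu q x 2) :=
    fun x => Real.exp_pos _
  have kmL : ContinuousOn (fun x : Fin 5 → ℝ =>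
      muL e q (psg d x) (py x) (pu q x 0) (pu q x 1) (pu q x 2)) (Icc 0 1) := by
    rw [continuousOn_pi] at knL ⊢
    intro i
    exact (knL i).div klam fun x _ => (hlam x).ne'
  have paK : ∀ x ∈ Icc (0 : Fin 5 → ℝ) 1, PA AK (muK e q (py x)) := by
    intro x hxx
    constructor
    · intro i hi
      fin_cases i
      · exact hq0
      · exact one_pos
      · exact hb x hxx
      · exact absurd hi (by decide)
    · intro i hi
      fin_cases i
      · exact absurd (by decide) hi
      · exact absurd (by decide) hi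
      · exact absurd (by decide) hi
      · rfl
  have paL : ∀ x ∈ Icc (0 : Fin 5 → ℝ) 1,
      PA AL (muL e q (psg d x) (py x) (pu q x 0) (pu q x 1) (pu q x 2)) := by
    intro x hxx
    constructor
    · intro i hi
      fin_cases i
      · exact absurd hi (by decide)
      · exact div_pos (n1 x) (hlam x)
      · exact div_pos (n2 x hxx) (hlam x)
      · exact div_pos (hss x hxx).1 (hlam x)
    · intro i hi
      fin_cases i
      · exact zero_div _
      · exact absurd (by decide) hi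
      · exact absurd (by decide) hi
      · exact absurd (by decide) hi
  have lDL : ∀ x ∈ Icc (0 : Fin 5 → ℝ) 1,
      muL e q (psg d x) (py x) (pu q x 0) (pu q x 1) (pu q x 2) ∈ DL := by
    intro x hxx
    obtain ⟨h1, h2⟩ := paL x hxx
    exact ⟨(h2 0 (by decide)).ge, h1 1 (by decide), (h1 2 (by decide)).le, (h1 3 (by decide)).le⟩
  unfold hK hL mK mL lm
  rw [← he]
  have hkK := hH k hk AK (Or.inl rfl)
  have hkL := hH k hk AL (Or.inr rfl)
  rw [← he] at hkK hkL
  refine ⟨fun x hxx => ⟨paK x hxx, paL x hxx, hlam x, fun i hi => hkK _ (paK x hxx) i hi,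
    fun i hi => hkL _ (paL x hxx) i hi⟩, fun i => (continuousOn_pi.1 kmK) i,
    fun i => (continuousOn_pi.1 kmL) i, klam, ?_, ?_⟩
  · intro i hi
    by_cases h0 : i = 0
    · subst h0
      exact c2.comp kmK mDK
    · exact (c1 i h0).comp kmK mDL
  · intro i hi
    have h0 : i ≠ 0 := by
      rintro rfl
      exact absurd hi (by decide)
    exact (c1 i h0).comp kmL lDL

end Pool.Agent.PVD.M.H27
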